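import Pool.Agent.Helper33.DZ.Stmts

open Complex

namespace Pool.Agent.Helper33.DZ

/-- the value at zero of a normalised power series -/
theorem mf_zero (s : ℕ → ℕ) (c : ℂ) (g : ℂ → ℂ)
    (hs : ∀ q ∈ Metric.ball (0 : ℂ) 1,
      HasSum (fun n : ℕ => c * ((s (n + 1) : ℕ) : ℂ) * q ^ (n + 1)) (g q - 1)) : g 0 = 1 := by
  have h := hs 0 (by simp)
  have h0 : HasSum (fun n : ℕ => c * ((s (n + 1) : ℕ) : ℂ) * (0 : ℂ) ^ (n + 1)) 0 := by
    have : (fun n : ℕ => c * ((s (n + 1) : ℕ) : ℂ) * (0 : ℂ) ^ (n + 1)) = fun _ => 0 := by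
      funext n; simp
    rw [this]; exact hasSum_zero
  have := h.unique h0
  linear_combination this

theorem mf_mem (x : ℝ) (h0 : 0 < x) (h1 : x < 1) : (x : ℂ) ∈ Metric.ball (0 : ℂ) 1 := by
  simp [abs_of_pos h0, h1]

/-- real and imaginary part of the series on the real axis -/
theorem mf_real (s : ℕ → ℕ) (c : ℝ) (g : ℂ → ℂ)
    (hs : ∀ q ∈ Metric.ball (0 : ℂ) 1,
      HasSum (fun n : ℕ => (c : ℂ) * ((s (n + 1) : ℕ) : ℂ) * q ^ (n + 1)) (g q - 1))
    (x : ℝ) (h0 : 0 < x) (h1 : x < 1) :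
    (g (x : ℂ)).im = 0 ∧
    HasSum (fun n : ℕ => c * ((s (n + 1) : ℕ) : ℝ) * x ^ (n + 1)) ((g (x : ℂ)).re - 1) := by
  have h := hs x (mf_mem x h0 h1)
  have he : (fun n : ℕ => (c : ℂ) * ((s (n + 1) : ℕ) : ℂ) * (x : ℂ) ^ (n + 1)) =
      fun n : ℕ => ((c * ((s (n + 1) : ℕ) : ℝ) * x ^ (n + 1) : ℝ) : ℂ) := by
    funext n; push_cast; ring
  rw [he] at h
  constructor
  · have h2 := h.mapL Complex.imCLM
    simp only [Complex.imCLM_apply, Complex.ofReal_im] at h2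
    have := h2.unique hasSum_zero
    simpa using this
  · have h2 := h.mapL Complex.reCLM
    simp only [Complex.reCLM_apply, Complex.ofReal_re, Complex.sub_re, Complex.one_re] at h2
    exact h2

/-- the series with positive coefficients is positive and increasing -/
theorem mf_pos (s : ℕ → ℕ) (hp : ∀ n, 0 < s (n + 1)) (c : ℝ) (hc : 0 < c) (x : ℝ) (A : ℝ)
    (h0 : 0 < x) (h : HasSum (fun n : ℕ => c * ((s (n + 1) : ℕ) : ℝ) * x ^ (n + 1)) A) :
    0 < A := by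
  have hf : ∀ n : ℕ, 0 < c * ((s (n + 1) : ℕ) : ℝ) * x ^ (n + 1) := fun n => by
    have := hp n
    have h2 : (0 : ℝ) < ((s (n + 1) : ℕ) : ℝ) := by exact_mod_cast this
    positivity
  exact hasSum_lt (fun n => (hf n).le) (hf 0) hasSum_zero h

theorem mf_mono (s : ℕ → ℕ) (hp : ∀ n, 0 < s (n + 1)) (c : ℝ) (hc : 0 < c) (x y : ℝ) (A B : ℝ)
    (h0 : 0 < x) (hxy : x < y)
    (h : HasSum (fun n : ℕ => c * ((s (n + 1) : ℕ) : ℝ) * x ^ (n + 1)) A)
    (h' : HasSum (fun n : ℕ => c * ((s (n + 1) : ℕ) : ℝ) * y ^ (n + 1)) B) : A < B := by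
  have hf : ∀ n : ℕ, c * ((s (n + 1) : ℕ) : ℝ) * x ^ (n + 1) <
      c * ((s (n + 1) : ℕ) : ℝ) * y ^ (n + 1) := fun n => by
    have := hp n
    have h2 : (0 : ℝ) < ((s (n + 1) : ℕ) : ℝ) := by exact_mod_cast this
    have h3 : x ^ (n + 1) < y ^ (n + 1) := pow_lt_pow_left₀ hxy h0.le (Nat.succ_ne_zero n)
    exact mul_lt_mul_of_pos_left h3 (by positivity)
  exact hasSum_lt (fun n => (hf n).le) (hf 0) h h'

theorem mf_sig (k n : ℕ) : 0 < ArithmeticFunction.sigma k (n + 1) :=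
  ArithmeticFunction.sigma_pos k (n + 1) (Nat.succ_ne_zero n)

theorem st_MF4 (hE : ST_EIS) : ST_MF4 := by
  obtain ⟨⟨g, hd, hi, hs⟩, -⟩ := hE
  have hs' : ∀ q ∈ Metric.ball (0 : ℂ) 1,
      HasSum (fun n : ℕ => ((240 : ℝ) : ℂ) * ((ArithmeticFunction.sigma 3 (n + 1) : ℕ) : ℂ) *
        q ^ (n + 1)) (g q - 1) := by
    intro q hq
    have := hs q hq
    simpa using this
  refine ⟨g, hd, mf_zero (fun n => ArithmeticFunction.sigma 3 n) 240 g hs, hi, ?_, ?_, ?_⟩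
  · intro x h0 h1
    exact (mf_real (fun n => ArithmeticFunction.sigma 3 n) 240 g hs' x h0 h1).1
  · intro x h0 h1
    have h := (mf_real (fun n => ArithmeticFunction.sigma 3 n) 240 g hs' x h0 h1).2
    have := mf_pos (fun n => ArithmeticFunction.sigma 3 n) (mf_sig 3) 240 (by norm_num) x _ h0 h
    linarith
  · intro x y h0 hxy h1
    have h := (mf_real (fun n => ArithmeticFunction.sigma 3 n) 240 g hs' x h0 (hxy.trans h1)).2
    have h' := (mf_real (fun n => ArithmeticFunction.sigma 3 n) 240 g hs' y (h0.trans hxy) h1).2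
    have := mf_mono (fun n => ArithmeticFunction.sigma 3 n) (mf_sig 3) 240 (by norm_num) x y _ _
      h0 hxy h h'
    linarith

end Pool.Agent.Helper33.DZ
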