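import Pool.Agent.Helper71.DZ.MF4

open Complex

namespace Pool.Agent.Helper33.DZ

theorem st_MF6 (hE : ST_EIS) : ST_MF6 := by
  obtain ⟨-, ⟨g, hd, hi, hs⟩⟩ := hE
  have hs' : ∀ q ∈ Metric.ball (0 : ℂ) 1,
      HasSum (fun n : ℕ => ((-504 : ℝ) : ℂ) * ((ArithmeticFunction.sigma 5 (n + 1) : ℕ) : ℂ) *
        q ^ (n + 1)) (g q - 1) := by
    intro q hq
    have := hs q hq
    simpa using this
  have hneg : ∀ x A : ℝ, HasSum (fun n : ℕ => (-504 : ℝ) *
      ((ArithmeticFunction.sigma 5 (n + 1) : ℕ) : ℝ) * x ^ (n + 1)) A →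
      HasSum (fun n : ℕ => (504 : ℝ) *
      ((ArithmeticFunction.sigma 5 (n + 1) : ℕ) : ℝ) * x ^ (n + 1)) (-A) := by
    intro x A h
    have h2 := h.neg
    have he : (fun n : ℕ => (504 : ℝ) *
      ((ArithmeticFunction.sigma 5 (n + 1) : ℕ) : ℝ) * x ^ (n + 1)) = fun n : ℕ => -((-504 : ℝ) *
      ((ArithmeticFunction.sigma 5 (n + 1) : ℕ) : ℝ) * x ^ (n + 1)) := by
      funext n; ring
    rw [he]; exact h2
  have him : ∀ x : ℝ, 0 < x → x < 1 → (g (x : ℂ)).im = 0 := fun x h0 h1 =>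
    (mf_real (fun n => ArithmeticFunction.sigma 5 n) (-504) g hs' x h0 h1).1
  refine ⟨g, hd, mf_zero (fun n => ArithmeticFunction.sigma 5 n) (-504) g hs, hi, him, ?_, ?_, ?_⟩
  · intro x h0 h1
    have h := hneg x _ (mf_real (fun n => ArithmeticFunction.sigma 5 n) (-504) g hs' x h0 h1).2
    have := mf_pos (fun n => ArithmeticFunction.sigma 5 n) (mf_sig 5) 504 (by norm_num) x _ h0 h
    linarith
  · intro x y h0 hxy h1
    have h := hneg x _
      (mf_real (fun n => ArithmeticFunction.sigma 5 n) (-504) g hs' x h0 (hxy.trans h1)).2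
    have h' := hneg y _
      (mf_real (fun n => ArithmeticFunction.sigma 5 n) (-504) g hs' y (h0.trans hxy) h1).2
    have := mf_mono (fun n => ArithmeticFunction.sigma 5 n) (mf_sig 5) 504 (by norm_num) x y _ _
      h0 hxy h h'
    linarith
  · have h := hi I (by simp)
    have h1 : (-1 / I : ℂ) = I := by
      rw [div_eq_iff I_ne_zero]; simp
    have h2 : (2 * (Real.pi : ℂ) * I * I) = ((-(2 * Real.pi) : ℝ) : ℂ) := by
      have : I * I = -1 := I_mul_I
      push_cast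
      linear_combination (2 * (Real.pi : ℂ)) * this
    rw [h1, h2, ← Complex.ofReal_exp] at h
    have h6 : (I : ℂ) ^ 6 = -1 := by
      have : (I : ℂ) ^ 2 = -1 := I_sq
      calc (I : ℂ) ^ 6 = (I ^ 2) ^ 3 := by ring
        _ = -1 := by rw [this]; norm_num
    rw [h6] at h
    have h3 : g ((Real.exp (-(2 * Real.pi)) : ℝ) : ℂ) = 0 := by
      linear_combination h / 2
    rw [h3]; simp

end Pool.Agent.Helper33.DZ
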